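import Pool.Agent.KT3.StmtsC
import Pool.Agent.Helper13_NBT.IBF

/-!
# KT3 squad, row EPP: the top eigenvector in the box
-/

set_option autoImplicit false

open Matrix Filter Topology

namespace Pool.Agent.KT3.H75

open Pool.Agent.PFS Pool.Agent.PFJ Pool.Agent.NBT

theorem gap_exists {k : ℕ} (a : Fin (k + 1) → ℝ) (i1 : Fin (k + 1))
    (ha : ∀ i, i ≠ 0 → i ≠ i1 → a i < a i1) :
    ∃ g₀ : ℝ, 0 < g₀ ∧ ∀ i, i ≠ 0 → i ≠ i1 → a i + g₀ ≤ a i1 := by
  have h1 : ∀ s : Finset (Fin (k + 1)),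
      ∃ g₀ : ℝ, 0 < g₀ ∧ ∀ i ∈ s, i ≠ 0 → i ≠ i1 → a i + g₀ ≤ a i1 := by
    intro s
    induction s using Finset.induction_on with
    | empty => exact ⟨1, one_pos, fun i hi => absurd hi (Finset.notMem_empty i)⟩
    | insert j s hj ih =>
      obtain ⟨g, hg, h⟩ := ih
      by_cases hj0 : j ≠ 0 ∧ j ≠ i1
      · have h3 := ha j hj0.1 hj0.2
        refine ⟨min g (a i1 - a j), lt_min hg (by linarith), ?_⟩
        intro i hi h0 h1
        rcases Finset.mem_insert.1 hi with rfl | hi
        · have := min_le_right g (a i1 - a i)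
          linarith
        · have h4 := min_le_left g (a i1 - a j)
          have h5 := h i hi h0 h1
          linarith
      · refine ⟨g, hg, ?_⟩
        intro i hi h0 h1
        rcases Finset.mem_insert.1 hi with rfl | hi
        · exact absurd ⟨h0, h1⟩ hj0
        · exact h i hi h0 h1
  obtain ⟨g, hg, h⟩ := h1 Finset.univ
  exact ⟨g, hg, fun i h0 h1 => h i (Finset.mem_univ i) h0 h1⟩

theorem epp (hPhe : PheStmt) (hUni : UniStmt) (hAtt : AttStmt) : EppStmt := by
  intro n k C Γ hHK T hT a i1 hi1 ha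
  obtain ⟨κ, hκ, hU⟩ := hUni n C Γ (k + 1) hHK (1 / 400) (by norm_num)
  have hCC : CC C Γ := hHK.toCC
  have hP : PCone C := hCC.toPCone
  obtain ⟨g₀, hg₀, hgap⟩ := gap_exists a i1 ha
  refine ⟨1 / 300, 400 * (κ + 1) * ((k : ℝ) + 1) / g₀, by norm_num, ?_⟩
  intro ε σ w z L g s lam hε hσ hLG
  have hk1 : (0 : ℝ) < (k : ℝ) + 1 := by positivity
  have hw : IsPES C Γ w := hT.pes w hLG.tw
  have hwc : ∀ i, w i ∈ closure C := fun i => hw.1.cl i
  obtain ⟨φ, hφ⟩ := hPhe n C Γ (k + 1) hHK w hw i1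
  set f : V n := fS w ({0}ᶜ : Finset (Fin (k + 1))) with hf
  have hfc : f ∈ closure C := fS_cl hP hwc _
  have hi1m : i1 ∈ ({0}ᶜ : Finset (Fin (k + 1))) := by
    rw [Finset.mem_compl, Finset.mem_singleton]; exact hi1
  have hfL : f ∈ L := L.sum_mem fun i hi => hLG.box.mem i hi
  have hwL : ∀ i, i ≠ 0 → w i ∈ L := by
    intro i hi
    refine hLG.box.mem i ?_
    rw [Finset.mem_compl, Finset.mem_singleton]; exact hi
  -- the sum
  have hsum : ∑ j, w j = w 0 + f := by
    have h1 := fS_add_compl w ({0} : Finset (Fin (k + 1)))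
    rw [fS_single] at h1
    exact h1.symm
  have hcomp : fS w ({i1}ᶜ : Finset (Fin (k + 1))) = w 0 + (f - w i1) := by
    have h1 := fS_add_compl w ({i1} : Finset (Fin (k + 1)))
    rw [fS_single, hsum] at h1
    have h2 : fS w ({i1}ᶜ : Finset (Fin (k + 1))) = (w i1 + fS w {i1}ᶜ) - w i1 := by abel
    rw [h2, h1]; abel
  have hfle : ∀ i, i ≠ 0 → f - w i ∈ closure C := by
    intro i hi
    have him : i ∈ ({0}ᶜ : Finset (Fin (k + 1))) := by
      rw [Finset.mem_compl, Finset.mem_singleton]; exact hi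
    have h1 : f = w i + ∑ j ∈ ({0}ᶜ : Finset (Fin (k + 1))).erase i, w j := by
      rw [hf]
      unfold fS
      exact (Finset.add_sum_erase _ _ him).symm
    have h2 : f - w i = ∑ j ∈ ({0}ᶜ : Finset (Fin (k + 1))).erase i, w j := by
      rw [h1]; abel
    rw [h2]
    exact hP.cl_sum fun j _ => hwc j
  -- nearness with the constant 1/300
  have hnr : ∀ i, i ≠ 0 → (1 / 300 : ℝ) • f - (z i - w i) ∈ closure C ∧
      (1 / 300 : ℝ) • f + (z i - w i) ∈ closure C := by
    intro i hi
    obtain ⟨-, -, h1, h2⟩ := hLG.nr i hi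
    have h3 : (1 / 300 - ε) • f ∈ closure C := hP.cl_smul hfc (by linarith)
    refine ⟨?_, ?_⟩
    · have h4 := hP.cl_add h1 h3
      have e : ε • f - (z i - w i) + (1 / 300 - ε) • f = (1 / 300 : ℝ) • f - (z i - w i) := by
        module
      rw [e] at h4; exact h4
    · have h4 := hP.cl_add h2 h3
      have e : ε • f + (z i - w i) + (1 / 300 - ε) • f = (1 / 300 : ℝ) • f + (z i - w i) := by
        module
      rw [e] at h4; exact h4
  have hzle : ∀ i, i ≠ 0 → (301 / 300 : ℝ) • f - z i ∈ closure C := by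
    intro i hi
    have h1 := hP.cl_add (hnr i hi).1 (hfle i hi)
    have e : (1 / 300 : ℝ) • f - (z i - w i) + (f - w i) = (301 / 300 : ℝ) • f - z i := by
      module
    rw [e] at h1; exact h1
  -- the linear map
  let H : V n →ₗ[ℝ] V n :=
    (Real.exp (-(a i1 * σ)) * s) • Matrix.mulVecLin (g : Matrix (Fin n) (Fin n) ℝ)
  have hHap : ∀ x : V n, H x = Real.exp (-(a i1 * σ)) • (s • act g x) := by
    intro x
    change (Real.exp (-(a i1 * σ)) * s) • act g x = _
    rw [mul_smul]
  have hHcl : ∀ x ∈ closure C, H x ∈ closure C := by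
    intro x hx
    rw [hHap]
    exact hP.cl_smul (hP.cl_smul (hCC.act_cl hLG.gm hx) hLG.s0.le) (Real.exp_pos _).le
  have hHL : ∀ x ∈ L, H x ∈ L := by
    intro x hx
    rw [hHap]
    refine L.smul_mem _ (L.smul_mem _ ?_)
    have h1 : act g x ∈ img g L := ⟨x, hx, rfl⟩
    rw [hLG.inv] at h1
    exact h1
  have hHw : ∀ i, i ≠ 0 → H (w i) = Real.exp (-((a i1 - a i) * σ)) • z i := by
    intro i hi
    rw [hHap, hLG.ei i hi, smul_smul, ← Real.exp_add]
    have e : -(a i1 * σ) + a i * σ = -((a i1 - a i) * σ) := by ring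
    rw [e]
  have hHw1 : H (w i1) = z i1 := by
    rw [hHw i1 hi1, sub_self, zero_mul, neg_zero, Real.exp_zero, one_smul]
  -- the small number E
  have hX : 400 * (κ + 1) * ((k : ℝ) + 1) ≤ g₀ * σ := by
    have h1 := (div_le_iff₀ hg₀).1 hσ
    linarith
  have hXpos : 0 < 400 * (κ + 1) * ((k : ℝ) + 1) := by positivity
  have hσ0 : 0 < σ := by
    have h1 : 0 < g₀ * σ := lt_of_lt_of_le hXpos hX
    exact (mul_pos_iff_of_pos_left hg₀).1 h1
  set E : ℝ := Real.exp (-(g₀ * σ)) with hE
  have hE0 : 0 < E := Real.exp_pos _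
  have hE1 : E * (400 * (κ + 1) * ((k : ℝ) + 1)) ≤ 1 := by
    have h1 : g₀ * σ ≤ Real.exp (g₀ * σ) := by
      have := Real.add_one_le_exp (g₀ * σ)
      linarith
    have h2 : E * Real.exp (g₀ * σ) = 1 := by
      rw [hE, ← Real.exp_add, neg_add_cancel, Real.exp_zero]
    calc E * (400 * (κ + 1) * ((k : ℝ) + 1)) ≤ E * Real.exp (g₀ * σ) :=
          mul_le_mul_of_nonneg_left (hX.trans h1) hE0.le
      _ = 1 := h2
  -- the rest f - w i1
  have hrest : ((k : ℝ) + 1) • ((E * (301 / 300)) • f) - H (f - w i1) ∈ closure C := by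
    set S : Finset (Fin (k + 1)) := ({0}ᶜ : Finset (Fin (k + 1))).erase i1 with hS
    have h1 : f - w i1 = ∑ j ∈ S, w j := by
      have h2 : f = w i1 + ∑ j ∈ S, w j := by
        rw [hf]
        unfold fS
        exact (Finset.add_sum_erase _ _ hi1m).symm
      rw [h2]; abel
    have hmem : ∀ j ∈ S, j ≠ 0 ∧ j ≠ i1 := by
      intro j hj
      rw [hS, Finset.mem_erase, Finset.mem_compl, Finset.mem_singleton] at hj
      exact ⟨hj.2, hj.1⟩
    have hone : ∀ j ∈ S, (E * (301 / 300)) • f - H (w j) ∈ closure C := by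
      intro j hj
      obtain ⟨hj0, hj1⟩ := hmem j hj
      rw [hHw j hj0]
      set c : ℝ := Real.exp (-((a i1 - a j) * σ)) with hc
      have hc0 : 0 < c := Real.exp_pos _
      have hcE : c ≤ E := by
        rw [hc, hE]
        refine Real.exp_le_exp.2 ?_
        have h3 := hgap j hj0 hj1
        have h4 : g₀ * σ ≤ (a i1 - a j) * σ :=
          mul_le_mul_of_nonneg_right (by linarith) hσ0.le
        linarith
      have h3 := hP.cl_smul (hzle j hj0) hc0.le
      have h4 : ((E - c) * (301 / 300)) • f ∈ closure C :=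
        hP.cl_smul hfc (mul_nonneg (by linarith) (by norm_num))
      have h5 := hP.cl_add h3 h4
      have e : c • ((301 / 300 : ℝ) • f - z j) + ((E - c) * (301 / 300)) • f =
          (E * (301 / 300)) • f - c • z j := by
        module
      rw [e] at h5; exact h5
    have h6 : ∑ j ∈ S, ((E * (301 / 300)) • f - H (w j)) ∈ closure C := hP.cl_sum hone
    rw [Finset.sum_sub_distrib, ← map_sum, ← h1, Finset.sum_const] at h6
    have hcard : ((S.card : ℕ) : ℝ) ≤ (k : ℝ) + 1 := by
      have h7 : S.card ≤ k + 1 := by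
        have := Finset.card_le_univ S
        rwa [Fintype.card_fin] at this
      have h8 : ((S.card : ℕ) : ℝ) ≤ ((k + 1 : ℕ) : ℝ) := by exact_mod_cast h7
      rwa [Nat.cast_add, Nat.cast_one] at h8
    have h9 : ((k : ℝ) + 1 - (S.card : ℝ)) • ((E * (301 / 300)) • f) ∈ closure C :=
      hP.cl_smul (hP.cl_smul hfc (by positivity)) (by linarith)
    have h10 := hP.cl_add h6 h9
    have e : S.card • (E * (301 / 300)) • f - H (f - w i1) +
        ((k : ℝ) + 1 - (S.card : ℝ)) • ((E * (301 / 300)) • f) =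
        ((k : ℝ) + 1) • ((E * (301 / 300)) • f) - H (f - w i1) := by
      rw [← Nat.cast_smul_eq_nsmul ℝ S.card ((E * (301 / 300)) • f)]
      module
    rw [e] at h10
    exact h10
  set q : ℝ := ((k : ℝ) + 1) * (E * (301 / 300)) with hq
  have hq0 : 0 ≤ q := by positivity
  have hrest' : q • f - H (f - w i1) ∈ closure C := by
    rw [hq, mul_smul]; exact hrest
  have hqs : (κ + 1 / 400) * q ≤ 1 / 200 := by
    have h1 : (κ + 1) * ((k : ℝ) + 1) * E ≤ 1 / 400 := by linarith
    have h2 : (κ + 1 / 400) * q ≤ (κ + 1) * q :=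
      mul_le_mul_of_nonneg_right (by linarith) hq0
    have h3 : (κ + 1) * q = ((κ + 1) * ((k : ℝ) + 1) * E) * (301 / 300) := by
      rw [hq]; ring
    rw [h3] at h2
    linarith
  have hff : (301 / 300 + q) • f - H f ∈ closure C := by
    have h1 := hP.cl_add hrest' (hzle i1 hi1)
    have e : q • f - H (f - w i1) + ((301 / 300 : ℝ) • f - z i1) = (301 / 300 + q) • f - H f := by
      rw [map_sub, hHw1]
      module
    rw [e] at h1; exact h1
  -- the contraction
  have hbox3 : ∀ v ∈ L, ∀ A : ℝ, v + A • w 0 ∈ closure C → v ∈ closure C := by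
    intro v hv A h
    have h1 := ((Pool.Agent.NBT.H13.ibf n C hP (k + 1) w hw.1).1 _ L hLG.box).2.2.1 v hv
      (fun _ => A)
    rw [compl_compl, Finset.sum_singleton] at h1
    exact (h1 h).1
  have hcontr1 : ∀ e ∈ L, ∀ r : ℝ, 0 ≤ r → φ e = 0 → r • f - e ∈ closure C →
      r • f + e ∈ closure C →
      (r / 100) • f - H e ∈ closure C ∧ (r / 100) • f + H e ∈ closure C := by
    intro e heL r hr he h1 h2
    have h3 : r • (∑ j, w j) - e ∈ closure C := by
      have h5 := hP.cl_add h1 (hP.cl_smul (hwc 0) hr)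
      have e1 : r • f - e + r • w 0 = r • (∑ j, w j) - e := by rw [hsum]; module
      rw [e1] at h5; exact h5
    have h4 : r • (∑ j, w j) + e ∈ closure C := by
      have h5 := hP.cl_add h2 (hP.cl_smul (hwc 0) hr)
      have e1 : r • f + e + r • w 0 = r • (∑ j, w j) + e := by rw [hsum]; module
      rw [e1] at h5; exact h5
    obtain ⟨h5, h6⟩ := hU w hw i1 φ hφ e r he hr h3 h4
    rw [hcomp, hsum] at h5 h6
    have hvL : r • (κ • (f - w i1) + (1 / 400 : ℝ) • f) ∈ L :=
      L.smul_mem _ (L.add_mem (L.smul_mem _ (L.sub_mem hfL (hwL i1 hi1))) (L.smul_mem _ hfL))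
    have h7 : r • (κ • (f - w i1) + (1 / 400 : ℝ) • f) - e ∈ closure C := by
      refine hbox3 _ (L.sub_mem hvL heL) (r * (κ + 1 / 400)) ?_
      have e1 : r • (κ • (f - w i1) + (1 / 400 : ℝ) • f) - e + (r * (κ + 1 / 400)) • w 0 =
          r • (κ • (w 0 + (f - w i1)) + (1 / 400 : ℝ) • (w 0 + f)) - e := by module
      rw [e1]; exact h5
    have h8 : r • (κ • (f - w i1) + (1 / 400 : ℝ) • f) + e ∈ closure C := by
      refine hbox3 _ (L.add_mem hvL heL) (r * (κ + 1 / 400)) ?_
      have e1 : r • (κ • (f - w i1) + (1 / 400 : ℝ) • f) + e + (r * (κ + 1 / 400)) • w 0 =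
          r • (κ • (w 0 + (f - w i1)) + (1 / 400 : ℝ) • (w 0 + f)) + e := by module
      rw [e1]; exact h6
    have h9 := hHcl _ h7
    have h10 := hHcl _ h8
    rw [map_sub, map_smul, map_add, map_smul, map_smul] at h9
    rw [map_add, map_smul, map_add, map_smul, map_smul] at h10
    -- add the bounds
    have h11 : (r * κ) • (q • f - H (f - w i1)) ∈ closure C := hP.cl_smul hrest' (by positivity)
    have h12 : (r * (1 / 400)) • ((301 / 300 + q) • f - H f) ∈ closure C :=
      hP.cl_smul hff (by positivity)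
    have h13 : (r * (1 / 100 - ((κ + 1 / 400) * q + 1 / 400 * (301 / 300)))) • f ∈ closure C := by
      refine hP.cl_smul hfc (mul_nonneg hr ?_)
      linarith
    have h14 := hP.cl_add (hP.cl_add h11 h12) h13
    refine ⟨?_, ?_⟩
    · have h15 := hP.cl_add h9 h14
      have e1 : r • (κ • H (f - w i1) + (1 / 400 : ℝ) • H f) - H e +
          ((r * κ) • (q • f - H (f - w i1)) + (r * (1 / 400)) • ((301 / 300 + q) • f - H f) +
          (r * (1 / 100 - ((κ + 1 / 400) * q + 1 / 400 * (301 / 300)))) • f) =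
          (r / 100) • f - H e := by module
      rw [e1] at h15; exact h15
    · have h15 := hP.cl_add h10 h14
      have e1 : r • (κ • H (f - w i1) + (1 / 400 : ℝ) • H f) + H e +
          ((r * κ) • (q • f - H (f - w i1)) + (r * (1 / 400)) • ((301 / 300 + q) • f - H f) +
          (r * (1 / 100 - ((κ + 1 / 400) * q + 1 / 400 * (301 / 300)))) • f) =
          (r / 100) • f + H e := by module
      rw [e1] at h15; exact h15
  have hφf : φ f = 1 := by
    rw [hf]
    unfold fS
    rw [map_sum, ← Finset.add_sum_erase _ _ hi1m, hφ.one, Finset.sum_eq_zero, add_zero]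
    intro j hj
    exact hφ.zero j (Finset.ne_of_mem_erase hj)
  obtain ⟨ξ, x, l, hξ0, hξ1, hξ2, hξt, hl1, hl2, hHx⟩ := hAtt n C hP L f (w i1) φ H (1 / 300)
    (by norm_num) (by norm_num) hfL hfc (hwL i1 hi1) (hwc i1) (hfle i1 hi1) hφ.pos hφ.one hφf
    hHL hHcl (by rw [hHw1]; exact (hnr i1 hi1).1) (by rw [hHw1]; exact (hnr i1 hi1).2) hcontr1
  have hξc : ∀ j, ξ j ∈ closure C := by
    intro j
    induction j with
    | zero => rw [hξ0]; exact hwc i1
    | succ j ih =>
      rw [(hξ1 j).2]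
      exact hP.cl_smul (hHcl _ ih) (inv_pos.2 (hξ1 j).1).le
  have hLcl : IsClosed (L : Set (V n)) := L.closed_of_finiteDimensional
  refine ⟨x, Real.exp (a i1 * σ) * l, ?_, ?_, ?_, ?_, ?_, ?_, ?_⟩
  · exact hLcl.mem_of_tendsto hξt (Eventually.of_forall fun j => (hξ2 j).1)
  · exact isClosed_closure.mem_of_tendsto hξt (Eventually.of_forall hξc)
  · have h1 : s • act g x = Real.exp (a i1 * σ) • H x := by
      rw [hHap, smul_smul, ← Real.exp_add, add_neg_cancel, Real.exp_zero, one_smul]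
    rw [h1, hHx, smul_smul]
  · have := Real.exp_pos (a i1 * σ)
    nlinarith
  · have := Real.exp_pos (a i1 * σ)
    nlinarith
  · have ht : Tendsto (fun j => (1 / 4 : ℝ) • f - (ξ j - w i1)) atTop
        (𝓝 ((1 / 4 : ℝ) • f - (x - w i1))) :=
      tendsto_const_nhds.sub (hξt.sub tendsto_const_nhds)
    refine isClosed_closure.mem_of_tendsto ht (Eventually.of_forall fun j => ?_)
    have h1 := (hξ2 j).2.2.1
    have h2 : (1 / 4 - 10 * (1 / 300) : ℝ) • f ∈ closure C := hP.cl_smul hfc (by norm_num)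
    have h3 := hP.cl_add h1 h2
    have e : (10 * (1 / 300) : ℝ) • f - (ξ j - w i1) + (1 / 4 - 10 * (1 / 300) : ℝ) • f =
        (1 / 4 : ℝ) • f - (ξ j - w i1) := by module
    rw [e] at h3; exact h3
  · have ht : Tendsto (fun j => (1 / 4 : ℝ) • f + (ξ j - w i1)) atTop
        (𝓝 ((1 / 4 : ℝ) • f + (x - w i1))) :=
      tendsto_const_nhds.add (hξt.sub tendsto_const_nhds)
    refine isClosed_closure.mem_of_tendsto ht (Eventually.of_forall fun j => ?_)
    have h1 := (hξ2 j).2.2.2
    have h2 : (1 / 4 - 10 * (1 / 300) : ℝ) • f ∈ closure C := hP.cl_smul hfc (by norm_num)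
    have h3 := hP.cl_add h1 h2
    have e : (10 * (1 / 300) : ℝ) • f + (ξ j - w i1) + (1 / 4 - 10 * (1 / 300) : ℝ) • f =
        (1 / 4 : ℝ) • f + (ξ j - w i1) := by module
    rw [e] at h3; exact h3

end Pool.Agent.KT3.H75
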